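import Pool.Agent.Lib.H9TP.Exch5
import Pool.Agent.Lib.H8F.F5

/-! # H9TP, file C5: the exchange lemma for `H8F.Cov5` -/

set_option autoImplicit false
set_option linter.unusedSectionVars false

namespace H9TP

open Finset H98P H98Z H98M H63F H30F H98TF

variable {V : Type*} [Fintype V] [DecidableEq V]

theorem dg_eq {F : Finset (Sym2 V)} (hl : ∀ e ∈ F, ¬ e.IsDiag) (v : V) :
    ((SimpleGraph.fromEdgeSet (F : Set (Sym2 V))).neighborSet v).ncard = H85TF.dg F v := by
  have h1 : (fun w => s(v, w)) '' ((SimpleGraph.fromEdgeSet (F : Set (Sym2 V))).neighborSet v) =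
      ((F.filter fun e => v ∈ e : Finset (Sym2 V)) : Set (Sym2 V)) := by
    ext e
    simp only [Set.mem_image, SimpleGraph.mem_neighborSet, SimpleGraph.fromEdgeSet_adj,
      Finset.mem_coe, mem_filter]
    constructor
    · rintro ⟨w, ⟨h1, h2⟩, rfl⟩
      exact ⟨h1, by simp⟩
    · rintro ⟨h1, w, rfl⟩
      exact ⟨w, ⟨h1, fun h => hl _ h1 (by simpa using h)⟩, rfl⟩
  have h2 : Function.Injective (fun w => s(v, w)) := by
    intro a b hab
    have h3 : s(v, a) = s(v, b) := hab
    rw [Sym2.eq_iff] at h3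
    rcases h3 with h3 | h3
    · exact h3.2
    · exact h3.2.trans h3.1
  unfold H85TF.dg
  rw [← Set.ncard_image_of_injective _ h2, h1, Set.ncard_coe_finset]

theorem cov5_iff {E : Finset (Sym2 V)} (hE : ∀ e ∈ E, ¬ e.IsDiag) (A : Finset V) :
    H8F.Cov5 E A ↔ Cov5 (SimpleGraph.fromEdgeSet (E : Set (Sym2 V))) (A : Set V) := by
  classical
  constructor
  · rintro ⟨F, h1, h2, h3, h4, h5⟩
    have hl : ∀ e ∈ F, ¬ e.IsDiag := fun e he => hE e (h1 he)
    refine ⟨SimpleGraph.fromEdgeSet (F : Set (Sym2 V)),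
      SimpleGraph.fromEdgeSet_mono (by exact_mod_cast h1), ⟨?_, ?_⟩, ?_, ?_⟩
    · intro u v w a b c
      rw [SimpleGraph.fromEdgeSet_adj] at a b c
      exact h3 u v w (by exact_mod_cast a.1) (by exact_mod_cast b.1) (by exact_mod_cast c.1)
    · intro x y z w hxz hyw a b c d
      rw [SimpleGraph.fromEdgeSet_adj] at a b c d
      exact h4 x y z w hxz hyw (by exact_mod_cast a.1) (by exact_mod_cast b.1)
        (by exact_mod_cast c.1) (by exact_mod_cast d.1)
    · intro v
      rw [dg_eq hl]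
      exact h2 v
    · intro v hv
      rw [dg_eq hl]
      exact h5 v (by exact_mod_cast hv)
  · rintro ⟨F', h1, ⟨h3, h4⟩, h2, h5⟩
    have hFE : (E.filter fun e => e ∈ F'.edgeSet) ⊆ E := filter_subset _ _
    have hl : ∀ e ∈ (E.filter fun e => e ∈ F'.edgeSet), ¬ e.IsDiag := fun e he => hE e (hFE he)
    have hmem : ∀ {x y : V}, s(x, y) ∈ (E.filter fun e => e ∈ F'.edgeSet) → F'.Adj x y := by
      intro x y h
      exact (mem_filter.1 h).2
    have hFF : SimpleGraph.fromEdgeSet ((E.filter fun e => e ∈ F'.edgeSet : Finset (Sym2 V)) :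
        Set (Sym2 V)) = F' := by
      ext x y
      rw [SimpleGraph.fromEdgeSet_adj, Finset.mem_coe]
      constructor
      · exact fun h => hmem h.1
      · intro h
        have h6 := h1 h
        rw [SimpleGraph.fromEdgeSet_adj] at h6
        exact ⟨mem_filter.2 ⟨by exact_mod_cast h6.1, h⟩, h6.2⟩
    refine ⟨E.filter fun e => e ∈ F'.edgeSet, hFE, ?_, ?_, ?_, ?_⟩
    · intro v
      rw [← dg_eq hl, hFF]
      exact h2 v
    · intro x y z a b c
      exact h3 x y z (hmem a) (hmem b) (hmem c)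
    · intro x y z w hxz hyw a b c d
      exact h4 x y z w hxz hyw (hmem a) (hmem b) (hmem c) (hmem d)
    · intro v hv
      rw [← dg_eq hl, hFF]
      exact h5 v (by exact_mod_cast hv)

/-- THE EXCHANGE LEMMA for `H8F.Cov5`. -/
theorem exch5_set {E : Finset (Sym2 V)} (hE : ∀ e ∈ E, ¬ e.IsDiag) {A U : Finset V} {b d : V}
    (hb : H8F.Cov5 E (insert b A)) (hd : H8F.Cov5 E (insert d A)) (hbU : b ∈ U) (hdU : d ∈ U)
    (hU : ¬ Disc U E) (hin : ∀ u ∈ U, u ≠ b → u ≠ d → ¬ H8F.Cov5 E (insert u A)) :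
    H8F.Cov5 E (insert b (insert d A)) := by
  obtain ⟨p, hp, hpU⟩ := H85TF.path_of_not_disc hU hbU hdU
  rw [cov5_iff hE] at hb hd ⊢
  rw [coe_insert] at hb hd
  rw [coe_insert, coe_insert, Set.insert_comm]
  refine exchange5 _ _ b d hb hd p hp fun r hr hrb hrd h => ?_
  refine hin r (hpU r hr) hrb hrd ?_
  rw [cov5_iff hE, coe_insert]
  exact h

/-- The exchange lemma in the form of `H8F.plane_five`. -/
theorem exch5_LW {E : Finset (Sym2 V)} (hE : E ⊆ LW univ) (A : Finset V) (b d : V) (U : Finset V)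
    (hb : H8F.Cov5 E (insert b A)) (hd : H8F.Cov5 E (insert d A)) (hbU : b ∈ U) (hdU : d ∈ U)
    (hU : ¬ Disc U E) (hin : ∀ u ∈ U, u ≠ b → u ≠ d → ¬ H8F.Cov5 E (insert u A)) :
    H8F.Cov5 E (insert b (insert d A)) := by
  refine exch5_set (fun e he hd => ?_) hb hd hbU hdU hU hin
  induction e with
  | _ x y =>
    have hxy : x = y := by simpa using hd
    subst hxy
    exact H8F.notMem_diag hE x he

end H9TP
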