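import Pool.Agent.Lib.H9TP.Tri

/-! # H9TP, file Exch5: the exchange lemma for coverings by disjoint cycles of length at least 5 -/

set_option autoImplicit false

namespace H9TP

open SimpleGraph H58E H20TD

variable {V : Type*}

/-- `A` is covered by pairwise disjoint cycles of `G` of length at least `5` -/
def Cov5 (G : SimpleGraph V) (A : Set V) : Prop :=
  ∃ F : SimpleGraph V, F ≤ G ∧ SF F ∧
    (∀ v, (F.neighborSet v).ncard = 0 ∨ (F.neighborSet v).ncard = 2) ∧
    ∀ v ∈ A, (F.neighborSet v).ncard = 2

theorem Cov5.mono {G : SimpleGraph V} {A B : Set V} (h : Cov5 G B) (hAB : A ⊆ B) : Cov5 G A := by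
  obtain ⟨F, h1, h2, h3, h4⟩ := h
  exact ⟨F, h1, h2, h3, fun v hv => h4 v (hAB hv)⟩

theorem Cov5.mono_graph {G G' : SimpleGraph V} {A : Set V} (h : Cov5 G A) (hG : G ≤ G') :
    Cov5 G' A := by
  obtain ⟨F, h1, h2, h3, h4⟩ := h
  exact ⟨F, h1.trans hG, h2, h3, h4⟩

variable [Finite V]

/-- adding a path whose vertices, except the first one, are isolated -/
theorem pend (G : SimpleGraph V) {x d : V} (p : G.Walk x d) :
    p.IsPath → x ≠ d → ∀ N : SimpleGraph V, N ≤ G → SF N →
      (∀ v ∈ p.support, v ≠ x → dg N v = 0) →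
      ∃ N' : SimpleGraph V, N' ≤ G ∧ SF N' ∧ dg N' x = dg N x + 1 ∧ dg N' d = 1 ∧
        (∀ v, v ∉ p.support → dg N' v = dg N v) ∧
        ∀ v ∈ p.support, v ≠ x → v ≠ d → dg N' v = 2 := by
  induction p with
  | nil => intro _ h; exact absurd rfl h
  | @cons x y d h q ih =>
    intro hp hxd N hN hsf hin
    rw [SimpleGraph.Walk.cons_isPath_iff] at hp
    have hxy : x ≠ y := G.ne_of_adj h
    have hy0 : dg N y = 0 := hin y (by simp) hxy.symm
    have hn : ¬ N.Adj x y := fun h' => by
      have := adj_pos h'.symm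
      omega
    have hsf1 : SF (addE N x y hxy) := by
      refine sf_add hsf hxy ?_ ?_
      · intro w _ h2
        have := adj_pos h2.symm
        omega
      · intro w s _ _ _ _ h3
        have := adj_pos h3.symm
        omega
    have hle : addE N x y hxy ≤ G := by
      intro s t hst
      rcases hst with h1 | h1 | h1
      · exact hN h1
      · rw [h1.1, h1.2]; exact h
      · rw [h1.1, h1.2]; exact h.symm
    have e1 := dg_add_left N hxy hn
    have e2 := dg_add_right N hxy hn
    have e3 : ∀ u, u ≠ x → u ≠ y → dg (addE N x y hxy) u = dg N u :=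
      fun u h1 h2 => dg_add_other N hxy h1 h2
    by_cases hyd : y = d
    · subst hyd
      refine ⟨addE N x y hxy, hle, hsf1, e1, by omega, ?_, ?_⟩
      · intro v hv
        refine e3 v ?_ ?_
        · rintro rfl; exact hv (by simp)
        · rintro rfl; exact hv (by simp)
      · intro v hv hvx hvy
        exfalso
        have hq : q = SimpleGraph.Walk.nil := by
          have := hp.1
          rwa [SimpleGraph.Walk.isPath_iff_eq_nil] at this
        subst hq
        simp at hv
        tauto
    · obtain ⟨N', k1, k2, k3, k4, k5, k6⟩ := ih hp.1 hyd (addE N x y hxy) hle hsf1 (by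
        intro v hv hvy
        have hvx : v ≠ x := fun e => hp.2 (e ▸ hv)
        rw [e3 v hvx hvy]
        exact hin v (by simp [hv]) hvx)
      refine ⟨N', k1, k2, ?_, k4, ?_, ?_⟩
      · rw [k5 x hp.2, e1]
      · intro v hv
        have h1 : v ∉ q.support := fun h' => hv (by simp [h'])
        have h2 : v ≠ x := by rintro rfl; exact hv (by simp)
        have h3 : v ≠ y := by rintro rfl; exact h1 (by simp)
        rw [k5 v h1, e3 v h2 h3]
      · intro v hv hvx hvd
        have h1 : v ∈ q.support := by
          rw [SimpleGraph.Walk.support_cons, List.mem_cons] at hv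
          rcases hv with h1 | h1
          · exact absurd h1 hvx
          · exact h1
        by_cases hvy : v = y
        · subst hvy
          rw [k3, e2, hy0]
        · exact k6 v h1 hvy hvd

/-- **Exchange lemma** for coverings by disjoint cycles of length at least `5`. -/
theorem exchange5 (G : SimpleGraph V) (A : Set V) (b d : V)
    (h1 : Cov5 G (insert b A)) (h2 : Cov5 G (insert d A)) (p : G.Walk b d) (hp : p.IsPath)
    (hin : ∀ r ∈ p.support, r ≠ b → r ≠ d → ¬ Cov5 G (insert r A)) :
    Cov5 G (insert d (insert b A)) := by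
  obtain ⟨F1, hF1, hs1, hd1, hA1⟩ := h1
  obtain ⟨F2, hF2, hs2, hd2, hA2⟩ := h2
  have hb1 : dg F1 b = 2 := hA1 b (Set.mem_insert _ _)
  have hdd2 : dg F2 d = 2 := hA2 d (Set.mem_insert _ _)
  rcases hd1 d with hd0 | hd0
  swap
  · refine ⟨F1, hF1, hs1, hd1, ?_⟩
    rintro v (rfl | hv)
    · exact hd0
    · exact hA1 v hv
  rcases hd2 b with hb0 | hb0
  swap
  · refine ⟨F2, hF2, hs2, hd2, ?_⟩
    rintro v (rfl | rfl | hv)
    · exact hdd2
    · exact hb0
    · exact hA2 v (Set.mem_insert_of_mem _ hv)
  have hb0' : dg F2 b = 0 := hb0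
  have hd0' : dg F1 d = 0 := hd0
  have hbd : b ≠ d := by rintro rfl; omega
  have hbA : b ∉ A := fun h => by
    have h3 : dg F2 b = 2 := hA2 b (Set.mem_insert_of_mem _ h)
    omega
  have hdA : d ∉ A := fun h => by
    have h3 : dg F1 d = 2 := hA1 d (Set.mem_insert_of_mem _ h)
    omega
  have hr0 : ∀ r ∈ p.support, r ≠ b → dg F1 r = 0 := by
    intro r hr hrb
    by_cases hrd : r = d
    · subst hrd; exact hd0
    · rcases hd1 r with h3 | h3
      · exact h3
      · exfalso
        refine hin r hr hrb hrd ⟨F1, hF1, hs1, hd1, ?_⟩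
        rintro v (rfl | hv)
        · exact h3
        · exact hA1 v (Set.mem_insert_of_mem _ hv)
  obtain ⟨N, k1, k2, k3, k4, k5, k6⟩ := pend G p hp hbd F1 hF1 hs1 hr0
  have hdegA : ∀ v ∈ A, dg F1 v = 2 := fun v hv => hA1 v (Set.mem_insert_of_mem _ hv)
  have hS : St G b (insert d A) N d := by
    refine ⟨k1, k2, hbd.symm, by omega, k4, ?_, ?_⟩
    · intro v hvb hvd
      by_cases hv : v ∈ p.support
      · exact Or.inr (k6 v hv hvb hvd)
      · rw [k5 v hv]; exact hd1 v
    · rintro v (rfl | hv)
      · omega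
      · by_cases hvp : v ∈ p.support
        · have hvb : v ≠ b := fun h => hbA (h ▸ hv)
          have := hr0 v hvp hvb
          have := hdegA v hv
          omega
        · rw [k5 v hvp]
          have := hdegA v hv
          omega
  have hbT : b ∉ (insert d A : Set V) := by
    rintro (h | h)
    · exact hbd h
    · exact hbA h
  obtain ⟨F, m1, m2, m3, m4, m5⟩ := tripod hbT hF2 hs2 hd2 hb0' hA2 _ N d (Nat.lt_succ_self _) hS
  refine ⟨F, m1, m2, m3, ?_⟩
  rintro v (rfl | rfl | hv)
  · exact m5 _ (Set.mem_insert _ _)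
  · exact m4
  · exact m5 v (Set.mem_insert_of_mem _ hv)

/-- walk form -/
theorem exchange5_walk (G : SimpleGraph V) (A : Set V) (b d : V)
    (h1 : Cov5 G (insert b A)) (h2 : Cov5 G (insert d A)) (p : G.Walk b d)
    (hin : ∀ r ∈ p.support, r ≠ b → r ≠ d → ¬ Cov5 G (insert r A)) :
    Cov5 G (insert d (insert b A)) := by
  classical
  exact exchange5 G A b d h1 h2 p.bypass p.bypass_isPath
    (fun r hr => hin r (p.support_bypass_subset_support hr))

end H9TP
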