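import Pool.Agent.Lib.H20TD.X

/-! # H9TP, file Sf: graphs without cycles of length 3 and 4, one edge changed at a time -/

set_option autoImplicit false

namespace H9TP

open SimpleGraph H58E H20TD

variable {V : Type*}

/-- no cycle of length 4 -/
def QF (F : SimpleGraph V) : Prop :=
  ∀ x y z w, x ≠ z → y ≠ w → F.Adj x y → F.Adj y z → F.Adj z w → ¬ F.Adj w x

/-- no cycle of length 3 or 4 -/
def SF (F : SimpleGraph V) : Prop := TF F ∧ QF F

theorem sf_rem {F : SimpleGraph V} (h : SF F) (a x : V) : SF (remE F a x) :=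
  ⟨tf_rem h.1 a x, fun x y z w h1 h2 h3 h4 h5 h6 => h.2 x y z w h1 h2 h3.1 h4.1 h5.1 h6.1⟩

theorem sf_add {F : SimpleGraph V} (h : SF F) {a x : V} (hax : a ≠ x)
    (h3 : ∀ w, F.Adj a w → ¬ F.Adj w x)
    (h4 : ∀ w y, w ≠ x → y ≠ a → F.Adj a w → F.Adj w y → ¬ F.Adj y x) :
    SF (addE F a x hax) := by
  refine ⟨tf_add h.1 hax h3, ?_⟩
  have hq := h.2
  have hl : ∀ u, ¬ F.Adj u u := fun u => F.loopless.irrefl u
  have hs : ∀ u v, F.Adj u v → F.Adj v u := fun u v h => h.symm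
  intro p q r s hpr hqs e1 e2 e3 e4
  have key : ∀ w x y z, w ≠ y → x ≠ z → F.Adj w x → F.Adj x y → F.Adj y z → F.Adj z w → False :=
    fun w x y z h1 h2 h3 h4 h5 h6 => hq w x y z h1 h2 h3 h4 h5 h6
  simp only [addE] at e1 e2 e3 e4
  rcases e1 with e1 | ⟨rfl, rfl⟩ | ⟨rfl, rfl⟩
  · rcases e2 with e2 | ⟨rfl, rfl⟩ | ⟨rfl, rfl⟩
    · rcases e3 with e3 | ⟨rfl, rfl⟩ | ⟨rfl, rfl⟩
      · rcases e4 with e4 | ⟨rfl, rfl⟩ | ⟨rfl, rfl⟩
        · exact key _ _ _ _ hpr hqs e1 e2 e3 e4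
        · exact h4 r q (Ne.symm hpr) hqs (hs _ _ e3) (hs _ _ e2) (hs _ _ e1)
        · exact h4 q r hqs (Ne.symm hpr) e1 e2 e3
      · grind
      · grind
    · grind
    · grind
  · grind
  · grind

theorem ms_le_of_sub {S S' : Set (V × V)} [Finite V] {a x : V} (hax : a ≠ x) (h : S' ⊆ S)
    (h1 : (a, x) ∈ S) (h2 : (x, a) ∈ S) (h3 : (a, x) ∉ S') (h4 : (x, a) ∉ S') :
    S'.ncard + 2 ≤ S.ncard := by
  have h5 : (insert (a, x) (insert (x, a) S')).ncard = S'.ncard + 2 := by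
    rw [Set.ncard_insert_of_notMem _ (Set.toFinite _), Set.ncard_insert_of_notMem h4 (Set.toFinite _)]
    rw [Set.mem_insert_iff, not_or]
    exact ⟨fun h => hax (congrArg Prod.fst h), h3⟩
  rw [← h5]
  exact Set.ncard_le_ncard (Set.insert_subset h1 (Set.insert_subset h2 h)) (Set.toFinite _)

theorem ms_add [Finite V] (F F2 : SimpleGraph V) {a x : V} (h : a ≠ x) (h1 : ¬ F.Adj a x)
    (h2 : F2.Adj a x) : ms (addE F a x h) F2 + 2 ≤ ms F F2 := by
  refine ms_le_of_sub h ?_ ?_ ?_ ?_ ?_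
  · rintro ⟨u, v⟩ huv
    simp only [Set.mem_ofPred_eq, addE] at huv ⊢
    intro h3
    apply huv
    constructor
    · rintro (h4 | h4 | h4)
      · exact h3.1 h4
      · rw [h4.1, h4.2]; exact h2
      · rw [h4.1, h4.2]; exact h2.symm
    · exact fun h4 => Or.inl (h3.2 h4)
  · simp only [Set.mem_ofPred_eq]; tauto
  · simp only [Set.mem_ofPred_eq, F.adj_comm x a, F2.adj_comm x a]; tauto
  · simp only [Set.mem_ofPred_eq, addE, not_not]
    exact ⟨fun _ => h2, fun _ => Or.inr (Or.inl ⟨trivial, trivial⟩)⟩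
  · simp only [Set.mem_ofPred_eq, addE, not_not]
    exact ⟨fun _ => h2.symm, fun _ => Or.inr (Or.inr ⟨trivial, trivial⟩)⟩

theorem ms_rem [Finite V] (F F2 : SimpleGraph V) {a x : V} (h1 : F.Adj a x)
    (h2 : ¬ F2.Adj a x) : ms (remE F a x) F2 + 2 ≤ ms F F2 := by
  refine ms_le_of_sub (F.ne_of_adj h1) ?_ ?_ ?_ ?_ ?_
  · rintro ⟨u, v⟩ huv
    simp only [Set.mem_ofPred_eq, remE] at huv ⊢
    intro h3
    apply huv
    constructor
    · exact fun h4 => h3.1 h4.1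
    · intro h4
      refine ⟨h3.2 h4, fun h5 => h2 ?_, fun h5 => h2 ?_⟩
      · rw [← h5.1, ← h5.2]; exact h4
      · rw [← h5.1, ← h5.2]; exact h4.symm
  · simp only [Set.mem_ofPred_eq]; tauto
  · simp only [Set.mem_ofPred_eq, F.adj_comm x a, F2.adj_comm x a]; tauto
  · simp only [Set.mem_ofPred_eq, remE, not_not]
    exact ⟨fun h3 => absurd ⟨trivial, trivial⟩ h3.2.1, fun h3 => absurd h3 h2⟩
  · simp only [Set.mem_ofPred_eq, remE, not_not]
    exact ⟨fun h3 => absurd ⟨trivial, trivial⟩ h3.2.2, fun h3 => absurd h3.symm h2⟩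

theorem ms_rem_le [Finite V] (F F2 : SimpleGraph V) (a x : V) :
    ms (remE F a x) F2 ≤ ms F F2 + 2 := by
  unfold ms
  have h1 : {p : V × V | ¬ ((remE F a x).Adj p.1 p.2 ↔ F2.Adj p.1 p.2)} ⊆
      insert (a, x) (insert (x, a) {p : V × V | ¬ (F.Adj p.1 p.2 ↔ F2.Adj p.1 p.2)}) := by
    rintro ⟨u, v⟩ huv
    simp only [Set.mem_ofPred_eq, remE, Set.mem_insert_iff, Prod.mk.injEq] at huv ⊢
    tauto
  refine (Set.ncard_le_ncard h1 (Set.toFinite _)).trans ?_
  refine (Set.ncard_insert_le _ _).trans ?_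
  have := Set.ncard_insert_le (x, a) {p : V × V | ¬ (F.Adj p.1 p.2 ↔ F2.Adj p.1 p.2)}
  omega

/-- a vertex of degree 2 has at most two neighbours -/
theorem nb2 [Finite V] {F : SimpleGraph V} {w a x z : V} (h : dg F w = 2) (hax : a ≠ x)
    (ha : F.Adj w a) (hx : F.Adj w x) (hz : F.Adj w z) : z = a ∨ z = x := by
  by_contra hcon
  rw [not_or] at hcon
  have := three hax (Ne.symm hcon.1) (Ne.symm hcon.2) ha hx hz
  omega

/-- a vertex of degree 3 has at most three neighbours -/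
theorem nb3 [Finite V] {F : SimpleGraph V} {w a x y z : V} (h : dg F w = 3) (hax : a ≠ x)
    (hay : a ≠ y) (hxy : x ≠ y) (ha : F.Adj w a) (hx : F.Adj w x) (hy : F.Adj w y)
    (hz : F.Adj w z) : z = a ∨ z = x ∨ z = y := by
  by_contra hcon
  rw [not_or, not_or] at hcon
  have h4 : ({z, a, x, y} : Set V).ncard = 4 := by
    rw [Set.ncard_insert_of_notMem (by simp [hcon.1, hcon.2.1, hcon.2.2]) (Set.toFinite _)]
    rw [Set.ncard_eq_three.2 ⟨a, x, y, hax, hay, hxy, rfl⟩]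
  have h5 : ({z, a, x, y} : Set V) ⊆ F.neighborSet w := by
    rintro u (rfl | rfl | rfl | rfl)
    · exact hz
    · exact ha
    · exact hx
    · exact hy
  have h6 := Set.ncard_le_ncard h5 (Set.toFinite _)
  unfold dg at h
  omega

end H9TP
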