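import Pool.Agent.Lib.H9TP.Sf

/-! # H9TP, file Tri: the tripod lemma (exchange for coverings without cycles of length 3 and 4)

A graph `N` in which `b` has degree 3, one vertex `c` has degree 1 and all other degrees are 0 or 2
is changed towards a graph `F2` with degrees 0 and 2 missing `b`, until all degrees are 0 or 2. -/

set_option autoImplicit false

namespace H9TP

open SimpleGraph H58E H20TD

variable {V : Type*}

/-- the result -/
def Res (G : SimpleGraph V) (b : V) (T : Set V) : Prop :=
  ∃ F : SimpleGraph V, F ≤ G ∧ SF F ∧ (∀ v, dg F v = 0 ∨ dg F v = 2) ∧ dg F b = 2 ∧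
    ∀ v ∈ T, dg F v = 2

/-- the state -/
structure St (G : SimpleGraph V) (b : V) (T : Set V) (N : SimpleGraph V) (c : V) : Prop where
  le : N ≤ G
  sf : SF N
  cb : c ≠ b
  db : dg N b = 3
  dc : dg N c = 1
  dv : ∀ v, v ≠ b → v ≠ c → dg N v = 0 ∨ dg N v = 2
  dT : ∀ v ∈ T, 0 < dg N v

/-- what a step gives -/
def Nx (G F2 : SimpleGraph V) (b : V) (T : Set V) (m : ℕ) : Prop :=
  Res G b T ∨ ∃ N c, St G b T N c ∧ ms N F2 < m

theorem le_swap {G N : SimpleGraph V} (hN : N ≤ G) {c v w : V} (hcv : c ≠ v) (h : G.Adj c v) :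
    addE (remE N v w) c v hcv ≤ G := by
  intro s t hst
  rcases hst with h1 | h1 | h1
  · exact hN h1.1
  · rw [h1.1, h1.2]; exact h
  · rw [h1.1, h1.2]; exact h.symm

theorem sf_swap3 {N : SimpleGraph V} (hsf : SF N) {c v p : V} (hu : ∀ w, N.Adj c w → w = p)
    (hcv : c ≠ v) (hpv : N.Adj p v) : SF (addE (remE N v p) c v hcv) := by
  refine sf_add (sf_rem hsf v p) hcv ?_ ?_
  · intro w h1 h2
    obtain rfl := hu w h1.1
    exact h2.2.2 ⟨rfl, rfl⟩
  · intro w y hw hy h1 h2 h3
    obtain rfl := hu w h1.1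
    exact hsf.1 w y v h2.1 h3.1 hpv

theorem sf_swap4 {N : SimpleGraph V} (hsf : SF N) {c v p y : V} (hu : ∀ w, N.Adj c w → w = p)
    (hcv : c ≠ v) (hpv : ¬ N.Adj p v) (hpv' : p ≠ v) (hpy : N.Adj p y) (hyv : N.Adj y v) :
    SF (addE (remE N v y) c v hcv) := by
  refine sf_add (sf_rem hsf v y) hcv ?_ ?_
  · intro w h1 h2
    obtain rfl := hu w h1.1
    exact hpv h2.1
  · intro w s hw hs h1 h2 h3
    obtain rfl := hu w h1.1
    by_cases hsy : s = y
    · subst hsy
      exact h3.2.2 ⟨rfl, rfl⟩
    · exact hsf.2 w s v y hpv' hsy h2.1 h3.1 hyv.symm hpy.symm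

variable [Finite V]

theorem swap {G F2 N : SimpleGraph V} {b c v w : V} {T : Set V} (hS : St G b T N c) (hbT : b ∉ T)
    (hG : G.Adj c v) (hN : ¬ N.Adj c v) (hvb : v ≠ b) (hvw : N.Adj v w) (hcv : c ≠ v)
    (hsf : SF (addE (remE N v w) c v hcv)) :
    (w = b → Res G b T) ∧ (w ≠ b → St G b T (addE (remE N v w) c v hcv) w) := by
  have hwc : w ≠ c := fun h => hN (h ▸ hvw.symm)
  have hvw' : v ≠ w := N.ne_of_adj hvw
  have hn : ¬ (remE N v w).Adj c v := fun h => hN h.1
  have e1 : dg (addE (remE N v w) c v hcv) c = 2 := by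
    rw [dg_add_left _ hcv hn, dg_rem_other N hcv hwc.symm, hS.dc]
  have e2 : dg (addE (remE N v w) c v hcv) v = dg N v := by
    rw [dg_add_right _ hcv hn, dg_rem_left N hvw]
  have e3 : dg (addE (remE N v w) c v hcv) w + 1 = dg N w := by
    rw [dg_add_other _ hcv hwc hvw'.symm, dg_rem_right N hvw]
  have e4 : ∀ u, u ≠ c → u ≠ w → dg (addE (remE N v w) c v hcv) u = dg N u := by
    intro u hu1 hu2
    by_cases huv : u = v
    · rw [huv]; exact e2
    · rw [dg_add_other _ hcv hu1 huv, dg_rem_other N huv hu2]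
  have hle := le_swap hS.le (w := w) hcv hG
  constructor
  · rintro rfl
    refine ⟨_, hle, hsf, ?_, ?_, ?_⟩
    · intro u
      by_cases h1 : u = c
      · subst h1; exact Or.inr e1
      · by_cases h2 : u = w
        · subst h2; right; have := hS.db; omega
        · rw [e4 u h1 h2]; exact hS.dv u h2 h1
    · have := hS.db; omega
    · intro u hu
      by_cases h1 : u = c
      · subst h1; exact e1
      · have h2 : u ≠ w := fun h => hbT (h ▸ hu)
        rw [e4 u h1 h2]
        have h3 := hS.dT u hu
        rcases hS.dv u h2 h1 with h4 | h4 <;> omega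
  · intro hwb
    have hw2 : dg N w = 2 := by
      have := adj_pos hvw.symm
      rcases hS.dv w hwb hwc with h4 | h4 <;> omega
    refine ⟨hle, hsf, hwb, ?_, by omega, ?_, ?_⟩
    · rw [e4 b hS.cb.symm (Ne.symm hwb)]; exact hS.db
    · intro u hu1 hu2
      by_cases h1 : u = c
      · subst h1; exact Or.inr e1
      · rw [e4 u h1 hu2]; exact hS.dv u hu1 h1
    · intro u hu
      by_cases h1 : u = c
      · subst h1; omega
      · by_cases h2 : u = w
        · subst h2; omega
        · rw [e4 u h1 h2]; exact hS.dT u hu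

/-- `swap` with an edge outside `F2` removed -/
theorem swapN {G F2 N : SimpleGraph V} {b c v w : V} {T : Set V} (hS : St G b T N c) (hbT : b ∉ T)
    (hG : F2 ≤ G) (h2 : F2.Adj c v) (hN : ¬ N.Adj c v) (hvb : v ≠ b) (hvw : N.Adj v w)
    (h2vw : ¬ F2.Adj v w) (hcv : c ≠ v)
    (hsf : SF (addE (remE N v w) c v hcv)) : Nx G F2 b T (ms N F2) := by
  have h3 := swap (F2 := F2) hS hbT (hG h2) hN hvb hvw hcv hsf
  by_cases hwb : w = b
  · exact Or.inl (h3.1 hwb)
  · refine Or.inr ⟨_, w, h3.2 hwb, ?_⟩
    have hn : ¬ (remE N v w).Adj c v := fun h => hN h.1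
    have h4 := ms_add (remE N v w) F2 hcv hn h2
    have h5 := ms_rem N F2 hvw h2vw
    omega

/-- removing the edge at `c` -/
theorem drop {G F2 N : SimpleGraph V} {b c : V} {T : Set V} (hS : St G b T N c) (hbT : b ∉ T)
    (h0 : dg F2 c = 0) (hT : ∀ v ∈ T, dg F2 v = 2) : Nx G F2 b T (ms N F2) := by
  obtain ⟨p, hp, hp2⟩ := ex_of_lt (F := F2) (F2 := N) (a := c) (by have := hS.dc; omega)
  have hcp : c ≠ p := N.ne_of_adj hp
  have e1 := dg_rem_left N hp
  have e2 := dg_rem_right N hp
  have e3 : ∀ u, u ≠ c → u ≠ p → dg (remE N c p) u = dg N u := fun u h1 h2 => dg_rem_other N h1 h2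
  have hc := hS.dc
  have hcT : c ∉ T := fun h => by have := hT c h; omega
  have hle : remE N c p ≤ G := fun s t h => hS.le h.1
  by_cases hpb : p = b
  · subst hpb
    have hb := hS.db
    refine Or.inl ⟨remE N c p, hle, sf_rem hS.sf c p, ?_, by omega, ?_⟩
    · intro u
      by_cases h1 : u = c
      · subst h1; left; omega
      · by_cases h2 : u = p
        · subst h2; right; omega
        · rw [e3 u h1 h2]; exact hS.dv u h2 h1
    · intro u hu
      have h1 : u ≠ c := fun h => hcT (h ▸ hu)
      have h2 : u ≠ p := fun h => hbT (h ▸ hu)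
      rw [e3 u h1 h2]
      have h3 := hS.dT u hu
      rcases hS.dv u h2 h1 with h4 | h4 <;> omega
  · have hpp : dg N p = 2 := by
      have := adj_pos hp.symm
      rcases hS.dv p hpb hcp.symm with h4 | h4 <;> omega
    refine Or.inr ⟨remE N c p, p, ⟨hle, sf_rem hS.sf c p, hpb, ?_, by omega, ?_, ?_⟩, ?_⟩
    · rw [e3 b hS.cb.symm (Ne.symm hpb)]; exact hS.db
    · intro u hu1 hu2
      by_cases h1 : u = c
      · subst h1; left; omega
      · rw [e3 u h1 hu2]; exact hS.dv u hu1 h1
    · intro u hu
      have h1 : u ≠ c := fun h => hcT (h ▸ hu)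
      by_cases h2 : u = p
      · subst h2; omega
      · rw [e3 u h1 h2]; exact hS.dT u hu
    · have := ms_rem N F2 hp hp2
      omega

/-- adding a clean edge at `c` -/
theorem clean {G F2 N : SimpleGraph V} {b c v : V} {T : Set V} (hS : St G b T N c) (hbT : b ∉ T)
    (hG : F2 ≤ G) (hd2 : ∀ v, dg F2 v = 0 ∨ dg F2 v = 2) (hb2 : dg F2 b = 0)
    (h2 : F2.Adj c v) (hN : ¬ N.Adj c v) (h3 : ∀ w, N.Adj c w → ¬ N.Adj w v)
    (h4 : ∀ w y, w ≠ v → y ≠ c → N.Adj c w → N.Adj w y → ¬ N.Adj y v) :
    Nx G F2 b T (ms N F2) := by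
  have hcv : c ≠ v := F2.ne_of_adj h2
  have hvb : v ≠ b := by
    rintro rfl
    have := adj_pos h2.symm
    omega
  have h2v : dg F2 v = 2 := by
    have := adj_pos h2.symm
    rcases hd2 v with h5 | h5 <;> omega
  rcases hS.dv v hvb hcv.symm with h5 | h5
  · have e1 := dg_add_left N hcv hN
    have e2 := dg_add_right N hcv hN
    have e3 : ∀ u, u ≠ c → u ≠ v → dg (addE N c v hcv) u = dg N u :=
      fun u h1 h2 => dg_add_other N hcv h1 h2
    have hc := hS.dc
    refine Or.inr ⟨addE N c v hcv, v, ⟨?_, sf_add hS.sf hcv h3 h4, hvb, ?_, by omega, ?_, ?_⟩, ?_⟩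
    · intro s t hst
      rcases hst with h1 | h1 | h1
      · exact hS.le h1
      · rw [h1.1, h1.2]; exact hG h2
      · rw [h1.1, h1.2]; exact (hG h2).symm
    · rw [e3 b hS.cb.symm (Ne.symm hvb)]; exact hS.db
    · intro u hu1 hu2
      by_cases h1 : u = c
      · subst h1; right; omega
      · rw [e3 u h1 hu2]; exact hS.dv u hu1 h1
    · intro u hu
      by_cases h1 : u = c
      · subst h1; omega
      · by_cases h2 : u = v
        · subst h2; omega
        · rw [e3 u h1 h2]; exact hS.dT u hu
    · have := ms_add N F2 hcv hN h2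
      omega
  · obtain ⟨w, hw1, hw2⟩ := rem_ex h5 h2v h2.symm (fun h => hN h.symm)
    refine swapN hS hbT hG h2 hN hvb hw1 hw2 hcv ?_
    exact sf_add (sf_rem hS.sf v w) hcv (fun u h6 h7 => h3 u h6.1 h7.1)
      (fun u s h6 h7 h8 h9 h10 => h4 u s h6 h7 h8.1 h9.1 h10.1)

/-- the step -/
theorem step {G F2 N : SimpleGraph V} {b c : V} {T : Set V} (hS : St G b T N c) (hbT : b ∉ T)
    (hG : F2 ≤ G) (hsf2 : SF F2) (hd2 : ∀ v, dg F2 v = 0 ∨ dg F2 v = 2) (hb2 : dg F2 b = 0)
    (hT : ∀ v ∈ T, dg F2 v = 2) : Nx G F2 b T (ms N F2) := by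
  have hnb : ∀ {u w : V}, F2.Adj u w → u ≠ b := by
    rintro u w h rfl
    have := adj_pos h
    omega
  have h2d : ∀ {u w : V}, F2.Adj u w → dg F2 u = 2 := by
    intro u w h
    have := adj_pos h
    rcases hd2 u with h5 | h5 <;> omega
  have hNd : ∀ {u w : V}, N.Adj u w → u ≠ b → u ≠ c → dg N u = 2 := by
    intro u w h h1 h2
    have := adj_pos h
    rcases hS.dv u h1 h2 with h5 | h5 <;> omega
  rcases hd2 c with h0 | h2c
  · exact drop hS hbT h0 hT
  obtain ⟨p, hp⟩ : ∃ p, N.Adj c p := by
    have h1 : 0 < dg N c := by have := hS.dc; omega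
    unfold dg at h1
    rw [Set.ncard_pos (Set.toFinite _)] at h1
    exact h1
  have hu : ∀ w, N.Adj c w → w = p := fun w hw => uniq hS.dc hp hw
  have hcp : c ≠ p := N.ne_of_adj hp
  obtain ⟨v, hv2, hvN⟩ := ex_of_lt (F := N) (F2 := F2) (a := c) (by have := hS.dc; omega)
  have hcv : c ≠ v := F2.ne_of_adj hv2
  have hvb : v ≠ b := hnb hv2.symm
  have hvp : p ≠ v := fun h => hvN (h ▸ hp)
  by_cases hpv : N.Adj p v
  · -- triangle `c p v`
    by_cases hpv2 : F2.Adj p v
    · have hpb : p ≠ b := hnb hpv2
      have hcp2 : ¬ F2.Adj c p := fun h => hsf2.1 c p v h hpv2 hv2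
      obtain ⟨z, hzv, hz⟩ := other h2c hv2
      have hcz : c ≠ z := F2.ne_of_adj hz
      have hzp : z ≠ p := fun h => hcp2 (h ▸ hz)
      have hNz : ¬ N.Adj c z := fun h => hzp (hu z h)
      have hpn : ∀ s, N.Adj p s → s = c ∨ s = v := fun s hs =>
        nb2 (hNd hp.symm hpb hcp.symm) hcv hp.symm hpv hs
      by_cases hvz : N.Adj v z
      · have h2vz : ¬ F2.Adj z v := by
          intro h
          rcases nb2 (h2d hv2.symm) hcp hv2.symm hpv2.symm h.symm with h1 | h1
          · exact hcz h1.symm
          · exact hzp h1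
        refine swapN hS hbT hG hz hNz (hnb hz.symm) hvz.symm h2vz hcz ?_
        refine sf_add (sf_rem hS.sf z v) hcz ?_ ?_
        · intro w h1 h2
          obtain rfl := hu w h1.1
          rcases hpn z h2.1 with h3 | h3
          · exact hcz h3.symm
          · exact hzv h3
        · intro w y hw hy h1 h2 h3
          obtain rfl := hu w h1.1
          rcases hpn y h2.1 with h4 | h4
          · exact hy h4
          · subst h4
            exact h3.2.2 ⟨rfl, rfl⟩
      · refine clean hS hbT hG hd2 hb2 hz hNz ?_ ?_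
        · intro w h1 h2
          obtain rfl := hu w h1
          rcases hpn z h2 with h3 | h3
          · exact hcz h3.symm
          · exact hzv h3
        · intro w y hw hy h1 h2 h3
          obtain rfl := hu w h1
          rcases hpn y h2 with h4 | h4
          · exact hy h4
          · subst h4
            exact hvz h3
    · exact swapN hS hbT hG hv2 hvN hvb hpv.symm (fun h => hpv2 h.symm) hcv
        (sf_swap3 hS.sf hu hcv hpv)
  · by_cases hy : ∃ y, y ≠ c ∧ N.Adj p y ∧ N.Adj y v
    swap
    · refine clean hS hbT hG hd2 hb2 hv2 hvN ?_ ?_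
      · intro w h1 h2
        obtain rfl := hu w h1
        exact hpv h2
      · intro w y hw hy' h1 h2 h3
        obtain rfl := hu w h1
        exact hy ⟨y, hy', h2, h3⟩
    obtain ⟨y, hyc, hpy, hyv⟩ := hy
    have hsf' := sf_swap4 hS.sf hu hcv hpv hvp hpy hyv
    by_cases hyv2 : F2.Adj y v
    swap
    · exact swapN hS hbT hG hv2 hvN hvb hyv.symm (fun h => hyv2 h.symm) hcv hsf'
    -- `c p y v` is a 4-cycle of `N + cv` and `yv` is an edge of `F2`
    have hyb : y ≠ b := hnb hyv2
    have hpy' : p ≠ y := N.ne_of_adj hpy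
    have hyv' : y ≠ v := N.ne_of_adj hyv
    have hS' := (swap (F2 := F2) hS hbT (hG hv2) hvN hvb hyv.symm hcv hsf').2 hyb
    have hms : ms (addE (remE N v y) c v hcv) F2 ≤ ms N F2 := by
      have hn : ¬ (remE N v y).Adj c v := fun h => hvN h.1
      have h4 := ms_add (remE N v y) F2 hcv hn hv2
      have h5 := ms_rem_le N F2 v y
      omega
    have lift : Nx G F2 b T (ms (addE (remE N v y) c v hcv) F2) → Nx G F2 b T (ms N F2) := by
      rintro (h | ⟨N1, c1, h1, h2⟩)
      · exact Or.inl h
      · exact Or.inr ⟨N1, c1, h1, by omega⟩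
    have hyn : ∀ s, N.Adj y s → s = p ∨ s = v := fun s hs =>
      nb2 (hNd hyv hyb hyc) hvp hpy.symm hyv hs
    -- adjacency in the rotated graph
    have ay : ∀ s, (addE (remE N v y) c v hcv).Adj y s → s = p := by
      rintro s (h1 | h1 | h1)
      · rcases hyn s h1.1 with h3 | h3
        · exact h3
        · exact absurd ⟨rfl, h3⟩ h1.2.2
      · exact absurd h1.1 hyc
      · exact absurd h1.1 hyv'
    have ap : ∀ s, (addE (remE N v y) c v hcv).Adj p s → N.Adj p s := by
      rintro s (h1 | h1 | h1)
      · exact h1.1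
      · exact absurd h1.1.symm hcp
      · exact absurd h1.1 hvp
    have ac : ∀ s, (addE (remE N v y) c v hcv).Adj c s → s = p ∨ s = v := by
      rintro s (h1 | h1 | h1)
      · exact Or.inl (hu s h1.1)
      · exact Or.inr h1.2
      · exact absurd h1.1 hcv
    obtain ⟨q, hqv, hq⟩ := other (h2d hyv2) hyv2
    have hyq : y ≠ q := F2.ne_of_adj hq
    have hqc : q ≠ c := by
      rintro rfl
      exact hsf2.1 y q v hq hv2 hyv2
    have hqb : q ≠ b := hnb hq.symm
    by_cases hcp2 : F2.Adj c p
    · have hpb : p ≠ b := hnb hcp2.symm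
      have hpn : ∀ s, N.Adj p s → s = c ∨ s = y := fun s hs =>
        nb2 (hNd hp.symm hpb hcp.symm) (Ne.symm hyc) hp.symm hpy hs
      have hqp : q ≠ p := by
        rintro rfl
        exact hsf2.2 c q y v (Ne.symm hyc) hvp hcp2 hq.symm hyv2 hv2.symm
      refine lift (clean hS' hbT hG hd2 hb2 hq (fun h => hqp (ay q h)) ?_ ?_)
      · intro w h1 h2
        obtain rfl := ay w h1
        rcases hpn q (ap q h2) with h3 | h3
        · exact hqc h3
        · exact hyq h3.symm
      · intro w s hw hs h1 h2 h3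
        obtain rfl := ay w h1
        rcases hpn s (ap s h2) with h4 | h4
        · subst h4
          rcases ac q h3 with h5 | h5
          · exact hqp h5
          · exact hqv h5
        · exact hs h4
    · obtain ⟨z, hzv, hz⟩ := other h2c hv2
      have hcz : c ≠ z := F2.ne_of_adj hz
      have hzp : z ≠ p := fun h => hcp2 (h ▸ hz)
      have hNz : ¬ N.Adj c z := fun h => hzp (hu z h)
      have hzy : z ≠ y := by
        rintro rfl
        exact hsf2.1 c z v hz hyv2 hv2
      have hzb : z ≠ b := hnb hz.symm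
      by_cases hpz : N.Adj p z
      · have hpb : p = b := by
          by_contra hpb
          rcases nb2 (hNd hp.symm hpb hcp.symm) (Ne.symm hyc) hp.symm hpy hpz with h3 | h3
          · exact hcz h3.symm
          · exact hzy h3
        refine swapN hS hbT hG hz hNz hzb hpz.symm (fun h => hnb h.symm hpb) hcz
          (sf_swap3 hS.sf hu hcz hpz)
      · by_cases hx : ∃ x, x ≠ c ∧ N.Adj p x ∧ N.Adj x z
        swap
        · refine clean hS hbT hG hd2 hb2 hz hNz ?_ ?_
          · intro w h1 h2
            obtain rfl := hu w h1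
            exact hpz h2
          · intro w s hw hs h1 h2 h3
            obtain rfl := hu w h1
            exact hx ⟨s, hs, h2, h3⟩
        obtain ⟨x, hxc, hpx, hxz⟩ := hx
        have hxy : x ≠ y := by
          rintro rfl
          rcases hyn z hxz with h3 | h3
          · exact hzp h3
          · exact hzv h3
        have hpb : p = b := by
          by_contra hpb
          rcases nb2 (hNd hp.symm hpb hcp.symm) (Ne.symm hyc) hp.symm hpy hpx with h3 | h3
          · exact hxc h3
          · exact hxy h3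
        by_cases hxz2 : F2.Adj x z
        swap
        · exact swapN hS hbT hG hz hNz hzb hxz.symm (fun h => hxz2 h.symm) hcz
            (sf_swap4 hS.sf hu hcz hpz hzp.symm hpx hxz)
        have hxb : x ≠ b := hnb hxz2
        have hxv : x ≠ v := by
          rintro rfl
          exact hpv hpx
        have hpn : ∀ s, N.Adj p s → s = c ∨ s = y ∨ s = x := fun s hs =>
          nb3 (hpb ▸ hS.db) (Ne.symm hyc) (Ne.symm hxc) (Ne.symm hxy) hp.symm hpy hpx hs
        have hxn : ∀ s, N.Adj x s → s = p ∨ s = z := fun s hs =>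
          nb2 (hNd hxz hxb hxc) (Ne.symm hzp) hpx.symm hxz hs
        have hqz : q ≠ z := by
          rintro rfl
          rcases nb2 (h2d hz.symm) (Ne.symm hxc) hz.symm hxz2.symm hq.symm with h3 | h3
          · exact hyc h3
          · exact hxy h3.symm
        by_cases hqx : q = x
        · subst hqx
          have hN' : ¬ (addE (remE N v y) c v hcv).Adj y q := fun h => hqb ((ay q h).trans hpb)
          have hqp' : (addE (remE N v y) c v hcv).Adj q p := by
            refine Or.inl ⟨hpx.symm, fun h => hxv h.1, fun h => hxy h.1⟩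
          refine Or.inl ((swap (F2 := F2) hS' hbT (hG hq) hN' hqb hqp' hyq ?_).1 hpb)
          refine sf_add (sf_rem hsf' q p) hyq ?_ ?_
          · intro w h1 h2
            obtain rfl := ay w h1.1
            exact h2.2.2 ⟨rfl, rfl⟩
          · intro w s hw hs h1 h2 h3
            obtain rfl := ay w h1.1
            rcases hpn s (ap s h2.1) with h4 | h4 | h4
            · subst h4
              rcases ac q h3.1 with h5 | h5
              · exact hqb (h5.trans hpb)
              · exact hxv h5
            · exact hs h4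
            · subst h4
              exact h2.2.2 ⟨rfl, rfl⟩
        · refine lift (clean hS' hbT hG hd2 hb2 hq (fun h => hqb ((ay q h).trans hpb)) ?_ ?_)
          · intro w h1 h2
            obtain rfl := ay w h1
            rcases hpn q (ap q h2) with h3 | h3 | h3
            · exact hqc h3
            · exact hyq h3.symm
            · exact hqx h3
          · intro w s hw hs h1 h2 h3
            obtain rfl := ay w h1
            rcases hpn s (ap s h2) with h4 | h4 | h4
            · subst h4
              rcases ac q h3 with h5 | h5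
              · exact hqb (h5.trans hpb)
              · exact hqv h5
            · exact hs h4
            · subst h4
              rcases h3 with h5 | h5 | h5
              · rcases hxn q h5.1 with h6 | h6
                · exact hqb (h6.trans hpb)
                · exact hqz h6
              · exact hxc h5.1
              · exact hxv h5.1

/-- THE TRIPOD LEMMA -/
theorem tripod {G F2 : SimpleGraph V} {b : V} {T : Set V} (hbT : b ∉ T)
    (hG : F2 ≤ G) (hsf2 : SF F2) (hd2 : ∀ v, dg F2 v = 0 ∨ dg F2 v = 2) (hb2 : dg F2 b = 0)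
    (hT : ∀ v ∈ T, dg F2 v = 2) :
    ∀ (n : ℕ) (N : SimpleGraph V) (c : V), ms N F2 < n → St G b T N c → Res G b T := by
  intro n
  induction n with
  | zero => intro N c h; omega
  | succ n ih =>
    intro N c h hS
    rcases step hS hbT hG hsf2 hd2 hb2 hT with h1 | ⟨N1, c1, h1, h2⟩
    · exact h1
    · exact ih N1 c1 (by omega) h1

end H9TP
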